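import Pool.Agent.P8H67.TD.Stm

/-!
# Project TD, package SLAB: finite unions of products of an interval with an open set
-/

set_option autoImplicit false

open Set Filter Topology

namespace Pool.Agent.P8H84.TD

open Pool.Agent.P8H67.TD
open Pool.Agent.H904R2 (RAcyc)

/-- the part of `W` over the interval `(a, b)` -/
def slab {Z : Type} (W : Set (ℝ × Z)) (a b : ℝ) : Set (ℝ × Z) := W ∩ (Ioo a b ×ˢ (univ : Set Z))

theorem isOpen_slab {Z : Type} [TopologicalSpace Z] {W : Set (ℝ × Z)} (hW : IsOpen W) (a b : ℝ) :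
    IsOpen (slab W a b) := hW.inter (isOpen_Ioo.prod isOpen_univ)

theorem slab_acyc (hPI : S_PI) (hDJ : S_DJ) (hMVS : S_MVS) (Z : Type) [TopologicalSpace Z] (j : ℕ)
    (h1 : ∀ V : Set Z, IsOpen V → RAcyc V (j + 1)) (h2 : ∀ V : Set Z, IsOpen V → RAcyc V (j + 2))
    (N : ℕ) (l r : Fin N → ℝ) (V : Fin N → Set Z) (hV : ∀ i, IsOpen (V i)) (P : Finset ℝ)
    (hl : ∀ i, l i ∈ P) (hr : ∀ i, r i ∈ P) :
    ∀ (n : ℕ) (a b : ℝ), a < b → (P.filter fun x => a < x ∧ x < b).card = n →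
      RAcyc (slab (⋃ i, Ioo (l i) (r i) ×ˢ V i : Set (ℝ × Z)) a b) (j + 2) := by
  intro n
  induction n using Nat.strong_induction_on with
  | _ n ih =>
  intro a b hab hn
  set W : Set (ℝ × Z) := ⋃ i, Ioo (l i) (r i) ×ˢ V i with hWdef
  have hWo : IsOpen W := isOpen_iUnion fun i => isOpen_Ioo.prod (hV i)
  have hmem : ∀ (x : ℝ) (z : Z), (x, z) ∈ W ↔ ∃ i, (l i < x ∧ x < r i) ∧ z ∈ V i := by
    intro x z
    simp only [hWdef, mem_iUnion, mem_prod, mem_Ioo]
  have hslab : ∀ (a b x : ℝ) (z : Z), (x, z) ∈ slab W a b ↔ (x, z) ∈ W ∧ a < x ∧ x < b := by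
    intro a b x z
    simp only [slab, mem_inter_iff, mem_prod, mem_Ioo, mem_univ, and_true]
  by_cases hP : ∃ p ∈ P, a < p ∧ p < b
  · obtain ⟨p, hpP, hap, hpb⟩ := hP
    obtain ⟨ε, hε, hball⟩ : ∃ ε : ℝ, 0 < ε ∧ ∀ q ∈ P, |q - p| < ε → q = p := by
      have hcl : IsOpen (((P.erase p : Finset ℝ) : Set ℝ)ᶜ) :=
        (P.erase p).finite_toSet.isClosed.isOpen_compl
      have hpm : p ∈ (((P.erase p : Finset ℝ) : Set ℝ)ᶜ) := by simp
      obtain ⟨ε, hε, hb⟩ := Metric.isOpen_iff.1 hcl p hpm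
      refine ⟨ε, hε, fun q hq hqp => ?_⟩
      by_contra hne
      have := hb (show q ∈ Metric.ball p ε by rwa [Metric.mem_ball, Real.dist_eq])
      exact this (by simp [hne, hq])
    set a' := max a (p - ε) with ha'
    set b' := min b (p + ε) with hb'
    have haa' : a ≤ a' := le_max_left _ _
    have hbb' : b' ≤ b := min_le_left _ _
    have hpe : p - ε ≤ a' := le_max_right _ _
    have hpe' : b' ≤ p + ε := min_le_right _ _
    have ha'p : a' < p := max_lt hap (by linarith)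
    have hpb' : p < b' := lt_min hpb (by linarith)
    have honly : ∀ q ∈ P, a' < q → q < b' → q = p := by
      intro q hq h3 h4
      apply hball q hq
      rw [abs_lt]
      constructor <;> linarith
    set Vp : Set Z := ⋃ i, ⋃ (_ : l i < p ∧ p < r i), V i with hVp
    have hVpo : IsOpen Vp := isOpen_iUnion fun i => isOpen_iUnion fun _ => hV i
    have hVpm : ∀ z, z ∈ Vp ↔ ∃ i, (l i < p ∧ p < r i) ∧ z ∈ V i := by
      intro z
      simp only [hVp, mem_iUnion, exists_prop]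
    have hA1 : RAcyc (slab W a p) (j + 2) := by
      refine ih _ ?_ a p hap rfl
      rw [← hn]
      apply Finset.card_lt_card
      rw [Finset.ssubset_iff_of_subset]
      · exact ⟨p, by simp [hpP, hap, hpb], by simp⟩
      · intro x hx
        simp only [Finset.mem_filter] at hx ⊢
        exact ⟨hx.1, hx.2.1, hx.2.2.trans hpb⟩
    have hA2 : RAcyc (slab W p b) (j + 2) := by
      refine ih _ ?_ p b hpb rfl
      rw [← hn]
      apply Finset.card_lt_card
      rw [Finset.ssubset_iff_of_subset]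
      · exact ⟨p, by simp [hpP, hap, hpb], by simp⟩
      · intro x hx
        simp only [Finset.mem_filter] at hx ⊢
        exact ⟨hx.1, hap.trans hx.2.1, hx.2.2⟩
    have hdis : Disjoint (slab W a p) (slab W p b) := by
      rw [Set.disjoint_left]
      rintro ⟨x, z⟩ hx hy
      rw [hslab] at hx hy
      linarith [hx.2.2, hy.2.1]
    have hA : RAcyc (slab W a p ∪ slab W p b : Set (ℝ × Z)) (j + 2) :=
      hDJ (ℝ × Z) _ _ (isOpen_slab hWo _ _) (isOpen_slab hWo _ _) hdis (j + 1) hA1 hA2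
    have hCsub : ∀ (x : ℝ) (z : Z), a' < x → x < b' → z ∈ Vp → (x, z) ∈ W := by
      intro x z h3 h4 hz
      obtain ⟨i, ⟨h5, h6⟩, h7⟩ := (hVpm z).1 hz
      rw [hmem]
      refine ⟨i, ⟨?_, ?_⟩, h7⟩
      · by_contra hcon
        push Not at hcon
        have := honly (l i) (hl i) (by linarith) (by linarith)
        linarith
      · by_contra hcon
        push Not at hcon
        have := honly (r i) (hr i) (by linarith) (by linarith)
        linarith
    have hC : RAcyc (Ioo a' b' ×ˢ Vp : Set (ℝ × Z)) (j + 2) :=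
      hPI Z Vp a' b' (ha'p.trans hpb') (j + 1) (h2 Vp hVpo)
    have hinter : (slab W a p ∪ slab W p b) ∩ (Ioo a' b' ×ˢ Vp) =
        (Ioo a' p ×ˢ Vp) ∪ (Ioo p b' ×ˢ Vp) := by
      ext ⟨x, z⟩
      simp only [mem_inter_iff, mem_union, hslab, mem_prod, mem_Ioo]
      constructor
      · rintro ⟨h3 | h3, ⟨h4, h5⟩, h6⟩
        · exact Or.inl ⟨⟨h4, h3.2.2⟩, h6⟩
        · exact Or.inr ⟨⟨h3.2.1, h5⟩, h6⟩
      · rintro (⟨⟨h4, h5⟩, h6⟩ | ⟨⟨h4, h5⟩, h6⟩)
        · exact ⟨Or.inl ⟨hCsub x z h4 (h5.trans hpb') h6, lt_of_le_of_lt haa' h4, h5⟩,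
            ⟨h4, h5.trans hpb'⟩, h6⟩
        · exact ⟨Or.inr ⟨hCsub x z (ha'p.trans h4) h5 h6, h4, lt_of_lt_of_le h5 hbb'⟩,
            ⟨ha'p.trans h4, h5⟩, h6⟩
    have hI : RAcyc ((slab W a p ∪ slab W p b) ∩ (Ioo a' b' ×ˢ Vp) : Set (ℝ × Z)) (j + 1) := by
      rw [hinter]
      refine hDJ (ℝ × Z) _ _ (isOpen_Ioo.prod hVpo) (isOpen_Ioo.prod hVpo) ?_ j
        (hPI Z Vp a' p ha'p j (h1 Vp hVpo)) (hPI Z Vp p b' hpb' j (h1 Vp hVpo))
      rw [Set.disjoint_left]
      rintro ⟨x, z⟩ hx hy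
      simp only [mem_prod, mem_Ioo] at hx hy
      linarith [hx.1.2, hy.1.1]
    have hU : slab W a b = (slab W a p ∪ slab W p b) ∪ (Ioo a' b' ×ˢ Vp) := by
      ext ⟨x, z⟩
      simp only [mem_union, hslab, mem_prod, mem_Ioo]
      constructor
      · rintro ⟨h3, h4, h5⟩
        rcases lt_trichotomy x p with h6 | h6 | h6
        · exact Or.inl (Or.inl ⟨h3, h4, h6⟩)
        · subst h6
          refine Or.inr ⟨⟨ha'p, hpb'⟩, ?_⟩
          rw [hmem] at h3
          exact (hVpm z).2 h3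
        · exact Or.inl (Or.inr ⟨h3, h6, h5⟩)
      · rintro ((⟨h3, h4, h5⟩ | ⟨h3, h4, h5⟩) | ⟨⟨h4, h5⟩, h6⟩)
        · exact ⟨h3, h4, h5.trans hpb⟩
        · exact ⟨h3, hap.trans h4, h5⟩
        · exact ⟨hCsub x z h4 h5 h6, lt_of_le_of_lt haa' h4, lt_of_lt_of_le h5 hbb'⟩
    rw [hU]
    exact hMVS (ℝ × Z) _ _ ((isOpen_slab hWo _ _).union (isOpen_slab hWo _ _))
      (isOpen_Ioo.prod hVpo) j hA hC hI
  · push Not at hP
    have hEq : slab W a b = Ioo a b ×ˢ (⋃ i, ⋃ (_ : l i ≤ a ∧ b ≤ r i), V i) := by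
      ext ⟨x, z⟩
      simp only [hslab, hmem, mem_prod, mem_Ioo, mem_iUnion, exists_prop]
      constructor
      · rintro ⟨⟨i, ⟨h3, h4⟩, h5⟩, h6, h7⟩
        refine ⟨⟨h6, h7⟩, i, ⟨?_, ?_⟩, h5⟩
        · by_contra hcon
          push Not at hcon
          linarith [hP (l i) (hl i) hcon]
        · by_contra hcon
          push Not at hcon
          linarith [hP (r i) (hr i) (by linarith)]
      · rintro ⟨⟨h6, h7⟩, i, ⟨h3, h4⟩, h5⟩
        exact ⟨⟨i, ⟨by linarith, by linarith⟩, h5⟩, h6, h7⟩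
    rw [hEq]
    exact hPI Z _ a b hab (j + 1)
      (h2 _ (isOpen_iUnion fun i => isOpen_iUnion fun _ => hV i))

/-- SLAB -/
theorem slb : S_SLAB := by
  intro hPI hDJ hMVS Z _ j h1 h2 N l r V hV
  set W : Set (ℝ × Z) := ⋃ i, Ioo (l i) (r i) ×ˢ V i with hWdef
  obtain ⟨a, ha⟩ := (Set.finite_range l).bddBelow
  obtain ⟨b, hb⟩ := (Set.finite_range r).bddAbove
  have hEq : W = slab W (min a b - 1) (max a b + 1) := by
    ext ⟨x, z⟩
    simp only [slab, mem_inter_iff, mem_prod, mem_Ioo, mem_univ, and_true]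
    constructor
    · intro hx
      refine ⟨hx, ?_⟩
      simp only [hWdef, mem_iUnion, mem_prod, mem_Ioo] at hx
      obtain ⟨i, ⟨h3, h4⟩, -⟩ := hx
      have h5 : a ≤ l i := ha ⟨i, rfl⟩
      have h6 : r i ≤ b := hb ⟨i, rfl⟩
      have h7 := min_le_left a b
      have h8 := le_max_right a b
      constructor <;> linarith
    · exact fun hx => hx.1
  rw [hEq]
  refine slab_acyc hPI hDJ hMVS Z j h1 h2 N l r V hV
    (Finset.univ.image l ∪ Finset.univ.image r) (fun i => by simp) (fun i => by simp) _ _ _ ?_ rfl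
  have h7 := min_le_left a b
  have h8 := le_max_left a b
  linarith

end Pool.Agent.P8H84.TD
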